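import Mathlib
import Pool.Agent.R421.SF.Main

/-!
# Tate-Shafarevich groups of the curves with a point of order 4, 8 or 12, by height

Let `m` be `4`, `8` or `12`. All elliptic curves over `ℚ` with a rational point of order `m`, ordered
by height: their number tends to infinity with the height, and the proportion of the curves of rank
at least `r` whose Tate-Shafarevich group has a subgroup isomorphic to `(ℚ₂ / ℤ₂) ^ δ` is at most
`C ρ ^ (r + δ)` for some `ρ < 1`, uniformly in the height, in `r` and in `δ`.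

The group `Ш` is that of `Pool.Agent.TH841.SH.ShaDef`: classes of continuous 1-cocycles of the
absolute Galois group of `ℚ` with values in the points over the algebraic numbers, that are trivial
over all completions `ℚ_p` and `ℝ`.
-/

set_option autoImplicit false

namespace Pool.Agent.Results.MP_a43263_nt.CyclicTorsionTails

open Finset Filter

open Pool.Agent.TH841.SH.D (HasDiv)

/-- the curve `y² = x³ + A x + B` over `ℚ` -/
def E (A B : ℤ) : WeierstrassCurve ℚ := ⟨0, 0, 0, (A : ℚ), (B : ℚ)⟩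

open Classical in
/-- The pairs `(A, B)` of integers such that `4 A³ + 27 B² ≠ 0`, there is no prime `p` with
`p⁴ ∣ A` and `p⁶ ∣ B`, the height `max (4 |A|³) (27 B²)` is at most `H`, and `y² = x³ + A x + B` has
a rational point of order `m`. (The bounds `|A|, |B| ≤ H` follow from the bound of the height. Every
elliptic curve over `ℚ` is isomorphic to `E A B` for exactly one pair with the first two
properties.) -/
noncomputable def Fam (m H : ℕ) : Finset (ℤ × ℤ) :=
  ((Icc (-(H : ℤ)) H) ×ˢ (Icc (-(H : ℤ)) H)).filter (fun c : ℤ × ℤ =>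
    4 * c.1 ^ 3 + 27 * c.2 ^ 2 ≠ 0 ∧ 4 * |c.1| ^ 3 ≤ H ∧ 27 * c.2 ^ 2 ≤ H ∧
    (∀ p : ℕ, p.Prime → ¬ ((p : ℤ) ^ 4 ∣ c.1 ∧ (p : ℤ) ^ 6 ∣ c.2)) ∧
    ∃ P : (E c.1 c.2).toAffine.Point, addOrderOf P = m)

lemma Fam_eq (m H : ℕ) : Fam m H = Pool.Agent.R421.HF.CvN m H := rfl

open Classical in
/-- **Theorem.** Let `m` be `4`, `8` or `12`. The number of the elliptic curves over `ℚ` of height at
most `H` with a rational point of order `m` tends to infinity with `H`, and there are `C` and
`ρ < 1` such that for all `H`, `r`, `δ` the proportion among them of the curves of rank at least `r`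
whose Tate-Shafarevich group has a subgroup isomorphic to `(ℚ₂ / ℤ₂) ^ δ` is at most
`C ρ ^ (r + δ)`. -/
theorem result (m : ℕ) (hm : m = 4 ∨ m = 8 ∨ m = 12) :
    Tendsto (fun H : ℕ => (Fam m H).card) atTop atTop ∧
    ∃ C ρ : ℝ, 0 < ρ ∧ ρ < 1 ∧ ∀ H r δ : ℕ,
      (((Fam m H).filter (fun c => r ≤ Module.finrank ℤ (E c.1 c.2).toAffine.Point ∧
        HasDiv (E c.1 c.2) δ)).card : ℝ) ≤ C * ρ ^ (r + δ) * (Fam m H).card := by
  simp only [Fam_eq]
  rcases hm with rfl | rfl | rfl
  · refine ⟨Pool.Agent.R421.HF.tendsto_of_low' (by norm_num) Pool.Agent.R421.Z4.low4, ?_⟩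
    exact Pool.Agent.R421.SF.tails Pool.Agent.R421.SF.main4S Pool.Agent.R421.SF.bc4
  · refine ⟨Pool.Agent.R421.HF.tendsto_of_low' (by norm_num) Pool.Agent.R421.Z8.low8, ?_⟩
    exact Pool.Agent.R421.SF.tails Pool.Agent.R421.SF.main8S Pool.Agent.R421.SF.bc8
  · refine ⟨Pool.Agent.R421.HF.tendsto_of_low' (by norm_num) Pool.Agent.R421.Z12.low12, ?_⟩
    exact Pool.Agent.R421.SF.tails Pool.Agent.R421.SF.main12S Pool.Agent.R421.SF.bc12

end Pool.Agent.Results.MP_a43263_nt.CyclicTorsionTails
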