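import Mathlib
import Pool.Agent.R421.NR.Fin

/-!
# The normal order of `Ш[2 ^ j]` for the curves with a point of order 4, 8 or 12, by height

Let `m` be `4`, `8` or `12`. Order all elliptic curves over `ℚ` with a rational point of order `m`
by height. For 100% of them the rank is bounded, and for all `j ≥ 1` the group `Ш(E)[2 ^ j]` is
finite, `log₂ #Ш(E)[2 ^ j]` is `(1 / 2 + o(1)) log log H + O(j)` and `2 Ш(E)[2 ^ j]` is bounded by
`O(1) ^ j`: so `Ш(E)[2 ^ j]` is, up to a bounded part, an elementary abelian `2`-group of rank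
`(1 / 2 + o(1)) log log H`.

The group `Ш` is that of `Pool.Agent.TH841.SH.ShaDef`: classes of continuous 1-cocycles of the
absolute Galois group of `ℚ` with values in the points over the algebraic numbers, that are trivial
over all completions `ℚ_p` and `ℝ`.
-/

set_option autoImplicit false

namespace Pool.Agent.Results.MP_a43263_nt.NormalOrderCyclic

open Finset Filter

open Pool.Agent.TH841.SH.D (Sha)

/-- the curve `y² = x³ + A x + B` over `ℚ` -/
def E (A B : ℤ) : WeierstrassCurve ℚ := ⟨0, 0, 0, (A : ℚ), (B : ℚ)⟩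

open Classical in
/-- The pairs `(A, B)` of integers such that `4 A³ + 27 B² ≠ 0`, there is no prime `p` with
`p⁴ ∣ A` and `p⁶ ∣ B`, the height `max (4 |A|³) (27 B²)` is at most `H`, and `y² = x³ + A x + B` has
a rational point of order `m`. (The bounds `|A|, |B| ≤ H` follow from the bound of the height. Every
elliptic curve over `ℚ` is isomorphic to `E A B` for exactly one pair with the first two
properties.) -/
noncomputable def Fam (m H : ℕ) : Finset (ℤ × ℤ) :=
  ((Icc (-(H : ℤ)) H) ×ˢ (Icc (-(H : ℤ)) H)).filter (fun c : ℤ × ℤ =>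
    4 * c.1 ^ 3 + 27 * c.2 ^ 2 ≠ 0 ∧ 4 * |c.1| ^ 3 ≤ H ∧ 27 * c.2 ^ 2 ≤ H ∧
    (∀ p : ℕ, p.Prime → ¬ ((p : ℤ) ^ 4 ∣ c.1 ∧ (p : ℤ) ^ 6 ∣ c.2)) ∧
    ∃ P : (E c.1 c.2).toAffine.Point, addOrderOf P = m)

/-- the elements of `Ш(E A B)` killed by `2 ^ j` -/
def tor (c : ℤ × ℤ) (j : ℕ) : Set (Sha (E c.1 c.2)) := {x | (2 ^ j) • x = 0}

/-- the doubles of the elements of `Ш(E A B)` killed by `2 ^ j` -/
def dbl (c : ℤ × ℤ) (j : ℕ) : Set (Sha (E c.1 c.2)) := {y | ∃ x, (2 ^ j) • x = 0 ∧ y = x + x}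

/-- The curve is typical for the height `H`, up to `δ` and with the constant `R`: its rank is at most
`R`, and for all `j ≥ 1` the group `Ш[2 ^ j]` is finite,
`(1 / 2 - δ) log log H ≤ log₂ #Ш[2 ^ j] ≤ (1 / 2 + δ) log log H + R j` and
`#(2 Ш[2 ^ j]) ≤ 2 ^ (R j)`. -/
def Typical (δ : ℝ) (R H : ℕ) (c : ℤ × ℤ) : Prop :=
  Module.finrank ℤ (E c.1 c.2).toAffine.Point ≤ R ∧ ∀ j : ℕ, 1 ≤ j →
    (tor c j).Finite ∧
    (1 / 2 - δ) * Real.log (Real.log H) ≤ Real.logb 2 ((tor c j).ncard) ∧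
    Real.logb 2 ((tor c j).ncard) ≤ (1 / 2 + δ) * Real.log (Real.log H) + R * j ∧
    (dbl c j).ncard ≤ 2 ^ (R * j)

open Classical in
/-- **Theorem.** Let `m` be `4`, `8` or `12`. For all `δ, ε > 0` there are `R` and `H₀` such that for
`H ≥ H₀` all but the proportion `ε` of the elliptic curves over `ℚ` of height at most `H` with a
rational point of order `m` (their number tends to infinity with `H`) are typical. -/
theorem result (m : ℕ) (hm : m = 4 ∨ m = 8 ∨ m = 12) :
    Tendsto (fun H : ℕ => (Fam m H).card) atTop atTop ∧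
    ∀ δ ε : ℝ, 0 < δ → 0 < ε → ∃ R H₀ : ℕ, ∀ H : ℕ, H₀ ≤ H →
      (((Fam m H).filter (fun c => ¬ Typical δ R H c)).card : ℝ) ≤ ε * (Fam m H).card := by
  have hF : ∀ H : ℕ, Fam m H = Pool.Agent.R421.HF.CvN m H := fun _ => rfl
  have key : ∀ (_ : Pool.Agent.R421.NR.St m), ∀ δ ε : ℝ, 0 < δ → 0 < ε → ∃ R H₀ : ℕ, ∀ H : ℕ,
      H₀ ≤ H → (((Fam m H).filter (fun c => ¬ Typical δ R H c)).card : ℝ) ≤
        ε * (Fam m H).card := by
    intro hst δ ε hδ hε
    obtain ⟨R, H0, h⟩ := hst δ ε hδ hε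
    refine ⟨R, H0, fun H hH => ?_⟩
    rw [hF]
    apply h H hH
    intro c hc
    rw [mem_filter] at hc
    exact hc
  refine ⟨?_, key ?_⟩
  · simp only [hF]
    rcases hm with rfl | rfl | rfl
    · exact Pool.Agent.R421.HF.tendsto_of_low' (by norm_num) Pool.Agent.R421.Z4.low4
    · exact Pool.Agent.R421.HF.tendsto_of_low' (by norm_num) Pool.Agent.R421.Z8.low8
    · exact Pool.Agent.R421.HF.tendsto_of_low' (by norm_num) Pool.Agent.R421.Z12.low12
  · rcases hm with rfl | rfl | rfl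
    · exact Pool.Agent.R421.NR.st4
    · exact Pool.Agent.R421.NR.st8
    · exact Pool.Agent.R421.NR.st12

end Pool.Agent.Results.MP_a43263_nt.NormalOrderCyclic
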