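import Pool.Agent.R431.GL.Pos

/-!
# The normal order of the Tate-Shafarevich groups of glued abelian varieties

For almost all tuples `(A_i, B_i)` of pairs of integers in a box of side `X` (which may be very
short: its position is arbitrary up to a power of `X`) the curves `E_i : y² = x (x - A_i) (x - B_i)`
have bounded ranks and boundedly many elements of order two in `Ш(E_i)`, while for all the abelian
varieties `𝒜 = (E_1 × ... × E_g) / Γ` obtained by gluing the curves along their points of order two the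
number of the elements of `Ш(𝒜)` killed by `2` is `2 ^ k` with `k` asymptotic to `3 g log log X`. The
elements of order four, eight, … contribute only a bounded number of cyclic factors.

For a positive proportion of the tuples of positive integers `A_i, B_i ≤ X` the groups `E_i(ℚ)` and
`𝒜(ℚ)` are finite, `Ш(E_i)` has a trivial 2-primary part, and for all the `𝒜` the 2-primary part of
`Ш(𝒜)` is finite and large: an elementary abelian 2-group of rank `(3 g + o(1)) log log X`.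
-/

set_option autoImplicit false

namespace Pool.Agent.Results.MP_a43263_nt.NormalOrderGlued

open Finset WeierstrassCurve

open Pool.Agent.TH841.SH.D (Sha)

open Pool.Agent.R431.GL (ShaG ratG)

/-- the curve `y² = x (x - A) (x - B)` -/
def E (A B : ℤ) : WeierstrassCurve ℚ := ⟨0, -((A : ℚ) + B), 0, (A : ℚ) * B, 0⟩

/-- the elements of the Tate-Shafarevich group of `W` killed by `2 ^ j` -/
def tor (W : WeierstrassCurve ℚ) (j : ℕ) : Set (Sha W) := {x | (2 ^ j) • x = 0}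

/-- the rank of the group of the rational points of `W` -/
noncomputable def rank (W : WeierstrassCurve ℚ) : ℕ := Module.finrank ℤ W.toAffine.Point

/-- `log log X` -/
noncomputable def loglog (X : ℕ) : ℝ := Real.log (Real.log X)

variable {g : ℕ}

/-- `Γ` glues the curves: its projections to the factors are onto, and no nonzero element of `Γ` has
only one nonzero component -/
structure Glues (Γ : AddSubgroup (Fin g → ZMod 2 × ZMod 2)) : Prop where
  onto : ∀ (i : Fin g) (v : ZMod 2 × ZMod 2), ∃ γ ∈ Γ, γ i = v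
  inj : ∀ γ ∈ Γ, ∀ i₀ : Fin g, (∀ i, i ≠ i₀ → γ i = 0) → γ = 0

/-- the elements of the Tate-Shafarevich group of `𝒜 = (E_1 × ... × E_g) / Γ` killed by `2 ^ j` -/
def torG (A B : Fin g → ℤ) (Γ : AddSubgroup (Fin g → ZMod 2 × ZMod 2)) (j : ℕ) :
    Set (ShaG A B Γ) := {x | (2 ^ j) • x = 0}

/-- the rank of `𝒜(ℚ)` -/
noncomputable def rankG (A B : Fin g → ℤ) (Γ : AddSubgroup (Fin g → ZMod 2 × ZMod 2)) : ℕ :=
  Module.finrank ℤ (ratG A B Γ)

/-- The tuple `(A_i, B_i)` is typical. For `E = E (A i) (B i)`: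
`2 ^ (rank E) * #Ш(E)[2 ^ j] ^ (1 / j) ≤ 2 ^ R` for all `j ≥ 1`. For every `𝒜`: the rank is at most
`R`; for all `j ≥ 1` the binary logarithm of `#Ш(𝒜)[2 ^ j]` is between `(3 g - δ) log log X` and
`(3 g + δ) log log X + R j`, and `#(2 Ш(𝒜)[2 ^ j]) ≤ 2 ^ (R j)`. -/
structure Typical (δ : ℝ) (R X : ℕ) (A B : Fin g → ℤ) : Prop where
  ne : ∀ i, A i ≠ 0 ∧ B i ≠ 0 ∧ A i ≠ B i
  curve : ∀ (i : Fin g) (j : ℕ), 1 ≤ j → (tor (E (A i) (B i)) j).Finite ∧
    2 ^ (rank (E (A i) (B i)) * j) * (tor (E (A i) (B i)) j).ncard ≤ 2 ^ (R * j)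
  rank : ∀ Γ, Glues Γ → rankG A B Γ ≤ R
  finite : ∀ Γ, Glues Γ → ∀ j : ℕ, 1 ≤ j → (torG A B Γ j).Finite
  lower : ∀ Γ, Glues Γ → ∀ j : ℕ, 1 ≤ j →
    (3 * g - δ) * loglog X ≤ Real.logb 2 (torG A B Γ j).ncard
  upper : ∀ Γ, Glues Γ → ∀ j : ℕ, 1 ≤ j →
    Real.logb 2 (torG A B Γ j).ncard ≤ (3 * g + δ) * loglog X + R * j
  double : ∀ Γ, Glues Γ → ∀ j : ℕ, 1 ≤ j →
    ((fun x => x + x) '' torG A B Γ j).ncard ≤ 2 ^ (R * j)

/-- The tuple `(A_i, B_i)` is good: `E (A i) (B i)` has finitely many rational points and its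
Tate-Shafarevich group has trivial 2-primary part; every `𝒜` has finitely many rational points, and the
2-primary part of `Ш(𝒜)` is isomorphic to `(ℤ / 2) ^ k` with `|k - 3 g log log X| ≤ δ log log X`. -/
structure Good (δ : ℝ) (X : ℕ) (A B : Fin g → ℤ) : Prop where
  ne : ∀ i, A i ≠ 0 ∧ B i ≠ 0 ∧ A i ≠ B i
  curve : ∀ i, Finite (E (A i) (B i)).toAffine.Point ∧
    AddCommGroup.primaryComponent (Sha (E (A i) (B i))) 2 = ⊥
  glued : ∀ Γ, Glues Γ → Finite (ratG A B Γ) ∧ ∃ k : ℕ,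
    |(k : ℝ) - 3 * g * loglog X| ≤ δ * loglog X ∧
    Nonempty (AddCommGroup.primaryComponent (ShaG A B Γ) 2 ≃+ (Fin k → ZMod 2))

lemma good_of {δ : ℝ} {X : ℕ} {A B : Fin g → ℤ} (h : Pool.Agent.R431.GL.GoodT δ X A B) :
    Good δ X A B := by
  refine ⟨fun i => ⟨(h.nd i).hA, (h.nd i).hB, (h.nd i).hAB⟩, fun i => ⟨h.pts i, ?_⟩,
    fun Γ hΓ => h.glued Γ hΓ.onto hΓ.inj⟩
  rw [eq_bot_iff]
  rintro x ⟨j, hj⟩
  have h6 := (h.sha i j).elim ⟨x, hj⟩ ⟨0, smul_zero _⟩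
  exact (AddSubgroup.mem_bot).2 (congrArg Subtype.val h6)

/-- the diagonal glues -/
example (hg : 2 ≤ g) : ∃ Γ : AddSubgroup (Fin g → ZMod 2 × ZMod 2), Glues Γ := by
  refine ⟨{ carrier := {γ | ∀ i j, γ i = γ j}
            zero_mem' := fun _ _ => rfl
            add_mem' := fun {a b} ha hb i j => by
              show a i + b i = a j + b j
              rw [ha i j, hb i j]
            neg_mem' := fun {a} ha i j => by
              show -a i = -a j
              rw [ha i j] }, fun i v => ⟨fun _ => v, fun _ _ => rfl, rfl⟩, fun γ hγ i₀ h => ?_⟩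
  have h2 : ∃ i, i ≠ i₀ := by
    by_cases h0 : i₀ = ⟨0, by omega⟩
    · refine ⟨⟨1, by omega⟩, ?_⟩
      rw [h0]
      intro h
      exact one_ne_zero (congrArg Fin.val h)
    · exact ⟨⟨0, by omega⟩, fun h => h0 h.symm⟩
  obtain ⟨i, hi⟩ := h2
  funext k
  exact (hγ k i).trans (h i hi)

open Classical in
/-- the first part -/
theorem part1 (g : ℕ) (hg : 2 ≤ g) (δ ε : ℝ) (L : ℕ) (hδ : 0 < δ) (hε : 0 < ε) : ∃ R X₀ : ℕ,
    ∀ (N₁ N₂ : Fin g → ℤ) (X : ℕ), X₀ ≤ X → (∀ i, |N₁ i| ≤ (X : ℤ) ^ L) →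
      (∀ i, |N₂ i| ≤ (X : ℤ) ^ L) →
      (((Fintype.piFinset (fun i => Ioc (N₁ i) (N₁ i + (X : ℤ)) ×ˢ
        Ioc (N₂ i) (N₂ i + (X : ℤ)))).filter (fun t : Fin g → ℤ × ℤ =>
          ¬ Typical δ R X (fun i => (t i).1) (fun i => (t i).2))).card : ℝ) ≤
        ε * X ^ (2 * g) := by
  obtain ⟨R, X₀, h⟩ := Pool.Agent.R431.GL.main g (by omega) δ ε L hδ hε
  refine ⟨R, X₀, fun N₁ N₂ X hX hN₁ hN₂ => ?_⟩
  obtain ⟨S, hS1, hS2⟩ := h N₁ N₂ X hX hN₁ hN₂
  refine le_trans (Nat.cast_le.2 (card_le_card (t := S) fun t ht => ?_)) hS1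
  rw [mem_filter, Fintype.mem_piFinset] at ht
  by_contra hn
  apply ht.2
  obtain ⟨k1, k2, k3⟩ := hS2 t ht.1 hn
  have k4 := fun Γ (hΓ : Glues Γ) => k3 Γ hΓ.onto hΓ.inj
  refine ⟨fun i => ⟨(k1 i).hA, (k1 i).hB, (k1 i).hAB⟩, k2, fun Γ hΓ => (k4 Γ hΓ).1,
    fun Γ hΓ j hj => ((k4 Γ hΓ).2 j hj).1, fun Γ hΓ j hj => ((k4 Γ hΓ).2 j hj).2.1,
    fun Γ hΓ j hj => ((k4 Γ hΓ).2 j hj).2.2.1, fun Γ hΓ j hj => ?_⟩
  have e : (fun x => x + x) '' torG (fun i => (t i).1) (fun i => (t i).2) Γ j =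
      {y | ∃ x : ShaG (fun i => (t i).1) (fun i => (t i).2) Γ, (2 ^ j) • x = 0 ∧ y = x + x} := by
    ext y
    constructor
    · rintro ⟨x, hx, rfl⟩
      exact ⟨x, hx, rfl⟩
    · rintro ⟨x, hx, rfl⟩
      exact ⟨x, hx, rfl⟩
  rw [e]
  exact ((k4 Γ hΓ).2 j hj).2.2.2

open Classical in
/-- **Theorem.** Let `g ≥ 2`.

(1) For all `δ, ε > 0` and `L` there are `R`, `X₀` such that for `X ≥ X₀` and
`|N₁ i|, |N₂ i| ≤ X ^ L` all the tuples of pairs of integers `N₁ i < A_i ≤ N₁ i + X`,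
`N₂ i < B_i ≤ N₂ i + X` with at most `ε X ^ (2 g)` exceptions are typical: the curves
`E_i : y² = x (x - A_i) (x - B_i)` have bounded ranks and bounded `Ш(E_i)[2]`, and for all the quotients
`𝒜 = (E_1 × ... × E_g) / Γ` by a gluing subgroup `Γ` of points of order two the number of the elements
of `Ш(𝒜)` killed by `2` is `2 ^ k` with `k` asymptotic to `3 g log log X`.

(2) There is `c > 0` such that for every `δ > 0` and all sufficiently large `X` at least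
`c X ^ (2 g)` of the tuples of pairs of integers between `1` and `X` are good: for all the `𝒜` the
group `𝒜(ℚ)` is finite and the 2-primary part of `Ш(𝒜)` is isomorphic to `(ℤ / 2) ^ k`,
`|k - 3 g log log X| ≤ δ log log X`. -/
theorem result (g : ℕ) (hg : 2 ≤ g) :
    (∀ (δ ε : ℝ) (L : ℕ), 0 < δ → 0 < ε → ∃ R X₀ : ℕ,
      ∀ (N₁ N₂ : Fin g → ℤ) (X : ℕ), X₀ ≤ X → (∀ i, |N₁ i| ≤ (X : ℤ) ^ L) →
        (∀ i, |N₂ i| ≤ (X : ℤ) ^ L) →
        (((Fintype.piFinset (fun i => Ioc (N₁ i) (N₁ i + (X : ℤ)) ×ˢ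
          Ioc (N₂ i) (N₂ i + (X : ℤ)))).filter (fun t : Fin g → ℤ × ℤ =>
            ¬ Typical δ R X (fun i => (t i).1) (fun i => (t i).2))).card : ℝ) ≤
          ε * X ^ (2 * g)) ∧
    ∃ c : ℝ, 0 < c ∧ ∀ δ : ℝ, 0 < δ → ∃ X₀ : ℕ, ∀ X : ℕ, X₀ ≤ X →
      c * (X : ℝ) ^ (2 * g) ≤ (((Fintype.piFinset (fun _ : Fin g => Ioc (0 : ℤ) X ×ˢ
        Ioc (0 : ℤ) X)).filter (fun t : Fin g → ℤ × ℤ =>
          Good δ X (fun i => (t i).1) (fun i => (t i).2))).card : ℝ) := by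
  refine ⟨part1 g hg, ?_⟩
  obtain ⟨c, hc, h⟩ := Pool.Agent.R431.GL.pos g (by omega)
  refine ⟨c, hc, fun δ hδ => ?_⟩
  obtain ⟨X₀, h0⟩ := h δ hδ
  refine ⟨X₀, fun X hX => (h0 X hX).trans (Nat.cast_le.2 (card_le_card fun t ht => ?_))⟩
  rw [mem_filter] at ht ⊢
  exact ⟨ht.1, good_of ht.2⟩

end Pool.Agent.Results.MP_a43263_nt.NormalOrderGlued
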