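import Pool.Agent.Y702.A.Stm
import Pool.Agent.Y702.G.Sel2
import Pool.Agent.Y65.Sham.Sham
import Pool.Agent.Y93.G.Inv
import Pool.Agent.Y141.G2.KUMP
import Pool.Agent.Y852.GS.Spl
import Pool.Agent.Y76.GPar.Par
import Pool.Agent.Y710.CV.Conv
import Pool.Agent.Y46.G2.Emb
import Pool.Agent.Y500.G.FLM
import Pool.Agent.Y67.LZ.Main
import Pool.Agent.Y125.DQ.Main
import Pool.Agent.Y355.G.Desc
import Pool.Agent.Y809.BS.Sel4
import Pool.Agent.Y809.BS.Desc
import Pool.Agent.Y809.BS.Inv
import Pool.Agent.Y809.BS.Kum2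
import Pool.Agent.Y154.NPar
import Pool.Agent.Y154.KUnr
import Pool.Agent.Y180.Y702.SCubic
import Pool.Agent.Y852.Two

/-!
# The forms of `E^g` that are split by a nonabelian 2-extension of `ℚ`

Let `K` be a Galois extension of `ℚ` whose degree is a power of two; its Galois group may be
nonabelian. An abelian variety `A` over `ℚ` that becomes isomorphic over `K` to a power `E^g` of an
elliptic curve `E` over `ℚ` without complex multiplication is `A = E ⊗ M`, where `M = ℤ^g` is a lattice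
with an action `R` of the Galois group of `ℚ` that is trivial on the Galois group of `K`; its dual is
`E ⊗ M^∨`. We prove that the 2-primary part of `Ш(A/ℚ)` is zero, and that `A(ℚ)` and the group of
the rational points of the dual are finite of odd order, in the following cases.

The field `K` is ramified only at primes `l ∤ 2 Δ` with `a_l(E)` odd, and
* `E = X_0(11)` (no other condition: `K` is unramified at `2` and `11`, but these primes may
  decompose in `K` in any way), or
* `E` has negative discriminant, `E(ℚ)` is finite of odd order, `Ш(E/ℚ)[2] = 0`, and the residue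
  degree in `K` of the primes that divide `2 Δ` is one.

Examples of such fields with a nonabelian Galois group are, for `X_0(11)`, the Hilbert class field of
`ℚ(√-155)` (dihedral of order 8, ramified at `5`, `31`, where `a_5 = 1`, `a_31 = 7`) and the
composites of such fields.
-/

set_option autoImplicit false

open NumberField IsDedekindDomain WeierstrassCurve

namespace Pool.Agent.Results.MP_a43263_nt.TwoGroupForms

open scoped Classical

open Pool.Agent.TH841.NF.D (Sha)
open Pool.Agent.TH841.SH.D (Pt act Gal)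

/-- The curve given by the equation of `W` over the ring `R`. -/
abbrev base (W : WeierstrassCurve ℤ) (R : Type) [CommRing R] : WeierstrassCurve R :=
  W.map (Int.castRingHom R)

/-- The number of the affine points `(x, y)` over the ring `R`. -/
noncomputable def pts (W : WeierstrassCurve ℤ) (R : Type) [CommRing R] : ℕ :=
  Nat.card {P : R × R // (base W R).toAffine.Equation P.1 P.2}

/-- The elliptic curve `X_0(11)`, with its global minimal equation
`y² + y = x³ - x² - 10 x - 20`. -/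
def X011 : WeierstrassCurve ℤ := ⟨0, -1, 1, -10, -20⟩

/-- The number field `K` is unramified over `ℚ` at the prime `p`. -/
def Unramified (K : Type) [Field K] [NumberField K] (p : ℕ) : Prop :=
  ∀ v : HeightOneSpectrum (𝓞 K), (p : 𝓞 K) ∈ v.asIdeal →
    v.valuation K (p : K) = WithZero.exp (-1 : ℤ)

/-- The group of the rational points is finite of odd order, and the Tate-Shafarevich group over `ℚ`
has no element of order two. -/
structure Seed (W : WeierstrassCurve ℤ) : Prop where
  points : Finite (base W ℚ).toAffine.Point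
  odd : Odd (Nat.card (base W ℚ).toAffine.Point)
  sha : ∀ s : Sha (base W ℚ), 2 • s = 0 → s = 0

section tensor

/-! ### The abelian variety `A = E ⊗ M`, `M = ℤ^g`

Its points over an algebraic closure of `ℚ` are the `g`-tuples of points of `E`; the Galois group of `ℚ`
acts on them by its action on `E` and the matrices `R(σ)`. -/

/-- The action of an integral matrix on `ℤ^g ⊗ G = G^g`. -/
def mat {G : Type} [AddCommGroup G] {g : ℕ} (A : Matrix (Fin g) (Fin g) ℤ) (P : Fin g → G) :
    Fin g → G := fun i => ∑ j, A i j • P j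

variable {g : ℕ} (W : WeierstrassCurve ℤ) (R : Gal ℚ →* GL (Fin g) ℤ)

/-- The points of `A` over an extension of `ℚ` over which the action on `M` is trivial. -/
abbrev PtA (g : ℕ) (L : Type) [Field L] [Algebra ℚ L] : Type := Fin g → Pt (base W ℚ) L

/-- The action of the Galois group on the points of `A`: `σ` applied to the coordinates, and then the
matrix `R(σ)`. -/
noncomputable def actA (σ : Gal ℚ) (P : PtA W g (AlgebraicClosure ℚ)) :
    PtA W g (AlgebraicClosure ℚ) :=
  mat (R σ : Matrix (Fin g) (Fin g) ℤ) (fun i => act (base W ℚ) σ.toAlgHom (P i))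

/-- `A(ℚ)`. -/
def ptsA : Set (PtA W g (AlgebraicClosure ℚ)) := {P | ∀ σ : Gal ℚ, actA W R σ P = P}

/-- `f` is a continuous cocycle with values in `A`: `f (σ τ) = f σ + σ (f τ)`. -/
def IsCocycle (f : Gal ℚ → PtA W g (AlgebraicClosure ℚ)) : Prop :=
  IsLocallyConstant f ∧ ∀ σ τ : Gal ℚ, f (σ * τ) = f σ + actA W R σ (f τ)

/-- `f` is a coboundary: `f σ = σ P - P`. -/
def IsCoboundary (f : Gal ℚ → PtA W g (AlgebraicClosure ℚ)) : Prop :=
  ∃ P : PtA W g (AlgebraicClosure ℚ), ∀ σ : Gal ℚ, f σ = actA W R σ P - P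

/-- For every embedding of the algebraic closures the restriction of `f` to the absolute Galois
group of `K` is a coboundary: `f σ = τ P - P` for `τ` in this group with restriction `σ`. -/
def LocTriv (K : Type) [Field K] [Algebra ℚ K] (f : Gal ℚ → PtA W g (AlgebraicClosure ℚ)) : Prop :=
  ∀ ι : AlgebraicClosure ℚ →ₐ[ℚ] AlgebraicClosure K, ∃ P : PtA W g (AlgebraicClosure K),
    ∀ (τ : Gal K) (σ : Gal ℚ), (∀ x, τ (ι x) = ι (σ x)) →
      (fun i => act (base W ℚ) ι (f σ i)) = mat (R σ : Matrix (Fin g) (Fin g) ℤ)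
        (fun i => act (base W ℚ) (τ.toAlgHom.restrictScalars ℚ) (P i)) - P

/-- `f` is a continuous cocycle that is locally trivial at all the places of `ℚ`; its class is an
element of `Ш(A/ℚ)`, and this is zero if and only if `f` is a coboundary. -/
def IsShaCocycle (f : Gal ℚ → PtA W g (AlgebraicClosure ℚ)) : Prop :=
  IsCocycle W R f ∧ (∀ (p : ℕ) [Fact p.Prime], LocTriv W R ℚ_[p] f) ∧ LocTriv W R ℝ f

end tensor

/-- The contragredient: `A ↦ (A⁻¹)ᵀ`.  It gives the action on the dual lattice `M^∨`. -/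
noncomputable def contra (g : ℕ) : GL (Fin g) ℤ →* GL (Fin g) ℤ where
  toFun A := ⟨((A⁻¹ : GL (Fin g) ℤ) : Matrix (Fin g) (Fin g) ℤ).transpose,
    ((A : GL (Fin g) ℤ) : Matrix (Fin g) (Fin g) ℤ).transpose, by
      rw [← Matrix.transpose_mul, ← Units.val_mul, mul_inv_cancel, Units.val_one,
        Matrix.transpose_one], by
      rw [← Matrix.transpose_mul, ← Units.val_mul, inv_mul_cancel, Units.val_one,
        Matrix.transpose_one]⟩
  map_one' := by
    apply Units.ext
    show ((1⁻¹ : GL (Fin g) ℤ) : Matrix (Fin g) (Fin g) ℤ).transpose = 1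
    rw [inv_one, Units.val_one, Matrix.transpose_one]
  map_mul' A B := by
    apply Units.ext
    show (((A * B)⁻¹ : GL (Fin g) ℤ) : Matrix (Fin g) (Fin g) ℤ).transpose =
      ((A⁻¹ : GL (Fin g) ℤ) : Matrix (Fin g) (Fin g) ℤ).transpose *
        ((B⁻¹ : GL (Fin g) ℤ) : Matrix (Fin g) (Fin g) ℤ).transpose
    rw [mul_inv_rev, Units.val_mul, Matrix.transpose_mul]

/-- the 2-part of `E` over `K` is trivial -/
def Triv (W : WeierstrassCurve ℤ) (K : Type) [Field K] [NumberField K] : Prop :=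
  (∀ s : Sha (W.map (Int.castRingHom K)), 2 • s = 0 → s = 0) ∧
  Finite (W.map (Int.castRingHom K)).toAffine.Point ∧
  Odd (Nat.card (W.map (Int.castRingHom K)).toAffine.Point)

/-- the case of `X_0(11)` -/
theorem triv11 (K : Type) [Field K] [NumberField K] [IsGalois ℚ K] (n m : ℕ)
    (hn : Module.finrank ℚ K = 2 ^ n)
    (hm : ∀ l : ℕ, l.Prime → l ∣ m → ¬ (l : ℤ) ∣ 2 * X011.Δ ∧ Odd ((l : ℤ) - pts X011 (ZMod l)))
    (hunr : ∀ p : ℕ, p.Prime → ¬ p ∣ m → Unramified K p) : Triv X011 K := by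
  have hΔ : X011.Δ = -161051 := by decide +kernel
  have hco : m.Coprime 22 := by
    rw [Nat.coprime_iff_gcd_eq_one]
    by_contra h
    obtain ⟨l, hl, hl2⟩ := Nat.exists_prime_and_dvd h
    have h1 : l ∣ 22 := hl2.trans (Nat.gcd_dvd_right _ _)
    apply (hm l hl (hl2.trans (Nat.gcd_dvd_left _ _))).1
    rw [hΔ]
    have h2 : (l : ℤ) ∣ 22 := by exact_mod_cast h1
    exact h2.trans ⟨-14641, by norm_num⟩
  have hodd' : ∀ l : ℕ, l.Prime → l ∣ m → Odd (Pool.Agent.W97.MT.ap Pool.Agent.Y702.E11 l) :=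
    fun l hl hlm => (hm l hl hlm).2
  obtain ⟨hcub, hsel⟩ := Pool.Agent.Y809.BS.s_sel Pool.Agent.Y809.BS.s_inv
    Pool.Agent.Y180.Y702.s_cubic Pool.Agent.Y852.Two.s_two Pool.Agent.Y809.BS.s_kum
    Pool.Agent.Y154.s_unr Pool.Agent.Y154.s_npar K n m hn hco hodd' hunr
  exact Pool.Agent.Y809.BS.s_desc _ hsel hcub

/-- the general case -/
theorem trivG (W : WeierstrassCurve ℤ) (hΔ : W.Δ < 0) (hS : Seed W)
    (K : Type) [Field K] [NumberField K] [IsGalois ℚ K] (n m : ℕ)
    (hn : Module.finrank ℚ K = 2 ^ n)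
    (hm : ∀ l : ℕ, l.Prime → l ∣ m → ¬ (l : ℤ) ∣ 2 * W.Δ ∧ Odd ((l : ℤ) - pts W (ZMod l)))
    (hunr : ∀ p : ℕ, p.Prime → ¬ p ∣ m → Unramified K p)
    (hdeg : ∀ v : HeightOneSpectrum (𝓞 K), ((2 * W.Δ : ℤ) : 𝓞 K) ∈ v.asIdeal →
      (Ideal.absNorm v.asIdeal).Prime) : Triv W K := by
  have hnr := Pool.Agent.Y702.G.no_root_of_odd W hΔ.ne hS.points hS.odd
  have hsel := Pool.Agent.Y702.G.sel_main2 Pool.Agent.Y93.G.s_inv Pool.Agent.Y141.G2.s_kump
    Pool.Agent.Y852.GS.s_spl
    Pool.Agent.Y76.GPar.s_par (Pool.Agent.Y710.CV.s_conv Pool.Agent.Y46.G2.s_emb)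
    (Pool.Agent.Y67.LZ.s_lz Pool.Agent.Y500.G.s_fl) Pool.Agent.Y125.DQ.s_descq
    W hΔ hnr hS.sha hS.points hS.odd K n m hn hm hunr hdeg
  exact Pool.Agent.Y355.G.s_desc W hΔ.ne K hsel (Pool.Agent.Y702.G.no_root _ hnr K n hn)

/-- **Main theorem.** Let `K` be a Galois extension of `ℚ` of degree `2 ^ n`, ramified at most at the
primes `l ∣ m`, and let `l ∤ 2 Δ` and `a_l = l - pts` be odd for all primes `l ∣ m`. Let
`E = X_0(11)`, or let `Δ < 0`, `E(ℚ)` finite of odd order, `Ш(E/ℚ)[2] = 0`, and let the residue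
degrees of the primes of `K` above the prime divisors of `2 Δ` be one. Let `M = ℤ^g` be a lattice, of any
rank, with an action `R` of the Galois group of `ℚ` that is trivial on the automorphisms that fix `K`.
Then for `A = E ⊗ M` the group `A(ℚ)` and the group of the rational points of the dual `E ⊗ M^∨` are
finite of odd order, and the 2-primary part of `Ш(A/ℚ)` is zero: a locally trivial cocycle `f` such that
`2 ^ k f` is a coboundary is a coboundary; the same holds for the dual. -/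
theorem result (W : WeierstrassCurve ℤ) (K : Type) [Field K] [NumberField K] [IsGalois ℚ K]
    (n m : ℕ) (hn : Module.finrank ℚ K = 2 ^ n)
    (hm : ∀ l : ℕ, l.Prime → l ∣ m → ¬ (l : ℤ) ∣ 2 * W.Δ ∧ Odd ((l : ℤ) - pts W (ZMod l)))
    (hunr : ∀ p : ℕ, p.Prime → ¬ p ∣ m → Unramified K p)
    (hW : W = X011 ∨ (W.Δ < 0 ∧ Seed W ∧ ∀ v : HeightOneSpectrum (𝓞 K),
      ((2 * W.Δ : ℤ) : 𝓞 K) ∈ v.asIdeal → (Ideal.absNorm v.asIdeal).Prime))
    (g : ℕ) (R : Gal ℚ →* GL (Fin g) ℤ) (e : K →+* AlgebraicClosure ℚ)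
    (hR : ∀ σ : Gal ℚ, (∀ x : K, σ (e x) = e x) → R σ = 1) :
    (Finite (ptsA W R) ∧ Odd (Nat.card (ptsA W R)) ∧
      ∀ f, IsShaCocycle W R f → ∀ k : ℕ, IsCoboundary W R (2 ^ k • f) → IsCoboundary W R f) ∧
    (Finite (ptsA W ((contra g).comp R)) ∧ Odd (Nat.card (ptsA W ((contra g).comp R))) ∧
      ∀ f, IsShaCocycle W ((contra g).comp R) f → ∀ k : ℕ,
        IsCoboundary W ((contra g).comp R) (2 ^ k • f) → IsCoboundary W ((contra g).comp R) f) := by
  obtain ⟨hΔ, hT⟩ : W.Δ ≠ 0 ∧ Triv W K := by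
    rcases hW with rfl | ⟨h1, h2, h3⟩
    · exact ⟨by decide +kernel, triv11 K n m hn hm hunr⟩
    · exact ⟨h1.ne, trivG W h1 h2 K n m hn hm hunr h3⟩
  have key : ∀ R' : Gal ℚ →* GL (Fin g) ℤ, (∀ σ : Gal ℚ, (∀ x : K, σ (e x) = e x) → R' σ = 1) →
      Finite (ptsA W R') ∧ Odd (Nat.card (ptsA W R')) ∧
      ∀ f, IsShaCocycle W R' f → ∀ k : ℕ, IsCoboundary W R' (2 ^ k • f) →
        IsCoboundary W R' f := by
    intro R' hR'
    obtain ⟨a1, a2, a3⟩ := Pool.Agent.Y65.Sham.s_SHAM W hΔ K n hn hT.1 hT.2.1 hT.2.2 g R' e hR'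
    refine ⟨a1, a2, fun f hf k hk => ?_⟩
    have h1 := a3 (QuotientAddGroup.mk (⟨f, hf⟩ : Pool.Agent.Y702.A.shaCocA W R')) k (by
      rw [← QuotientAddGroup.mk_nsmul, QuotientAddGroup.eq_zero_iff]
      exact hk)
    rw [QuotientAddGroup.eq_zero_iff] at h1
    exact h1
  refine ⟨key R hR, key _ fun σ hσ => ?_⟩
  show contra g (R σ) = 1
  rw [hR σ hσ, map_one]

end Pool.Agent.Results.MP_a43263_nt.TwoGroupForms
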